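import Mathlib
import Pool.Agent.Helper3.Q1.Defs

/-! Module (CL): finite compactness lemma on `Z / 3 ^ r`. -/

set_option autoImplicit false

namespace Pool.Agent.Helper3.Q1

open Finset

theorem LL_scale {c a : ℝ} (hc : 0 < c) : LL (c * a) c = c * Real.negMulLog a := by
  unfold LL Real.negMulLog
  rcases eq_or_ne a 0 with rfl | ha
  · simp
  · rw [Real.log_mul hc.ne' ha]; ring

theorem rd_cont (k r j : ℕ) : Continuous fun R : ZMod (3 ^ r) → ℝ => rd k R j := by
  unfold rd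
  refine continuous_finsetSum _ fun τ _ => ?_
  split_ifs
  · exact continuous_apply τ
  · exact continuous_const

theorem cv_cont (r : ℕ) (z : ZMod (3 ^ r)) :
    Continuous fun x : (ZMod (3 ^ r) → ℝ) × (ZMod (3 ^ r) → ℝ) => cv x.1 x.2 z := by
  unfold cv
  exact continuous_finsetSum _ fun τ _ =>
    ((continuous_apply τ).comp continuous_fst).mul ((continuous_apply (z - τ)).comp continuous_snd)

/-- a function invariant under `3 ^ k` has large entropy -/
theorem ent_of_inv {k r : ℕ} (hk : k ≤ r) {Q : ZMod (3 ^ r) → ℝ} (hQ : ∀ z, 0 ≤ Q z)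
    (hs : ∑ z, Q z = 1) (hinv : ∀ z, ∀ n : ℕ, Q (z + n • (3 ^ k : ZMod (3 ^ r))) = Q z) :
    ((r : ℝ) - k) * Real.log 3 ≤ ∑ z, Real.negMulLog (Q z) := by
  have hle : ∀ z, (3 : ℝ) ^ (r - k) * Q z ≤ 1 := by
    intro z
    have hinj : Set.InjOn (fun n : ℕ => z + n • (3 ^ k : ZMod (3 ^ r))) (range (3 ^ (r - k))) := by
      intro a ha b hb hab
      simp only [coe_range, Set.mem_Iio] at ha hb
      have h1 : ((a * 3 ^ k : ℕ) : ZMod (3 ^ r)) = ((b * 3 ^ k : ℕ) : ZMod (3 ^ r)) := by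
        have := add_left_cancel hab
        simpa [nsmul_eq_mul] using this
      have h3 : 3 ^ (r - k) * 3 ^ k = 3 ^ r := by rw [← pow_add]; congr 1; omega
      have hp : 0 < 3 ^ k := by positivity
      rw [ZMod.natCast_eq_natCast_iff', Nat.mod_eq_of_lt, Nat.mod_eq_of_lt] at h1
      · exact Nat.eq_of_mul_eq_mul_right hp h1
      · rw [← h3]; exact Nat.mul_lt_mul_of_pos_right hb hp
      · rw [← h3]; exact Nat.mul_lt_mul_of_pos_right ha hp
    calc (3 : ℝ) ^ (r - k) * Q z = ∑ n ∈ range (3 ^ (r - k)), Q (z + n • (3 ^ k : ZMod (3 ^ r))) := by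
          rw [sum_congr rfl fun n _ => hinv z n]; simp
      _ = ∑ y ∈ (range (3 ^ (r - k))).image (fun n : ℕ => z + n • (3 ^ k : ZMod (3 ^ r))), Q y := by
          rw [sum_image hinj]
      _ ≤ ∑ y, Q y := sum_le_sum_of_subset_of_nonneg (subset_univ _) fun _ _ _ => hQ _
      _ = 1 := hs
  have hlog : ((r : ℝ) - k) * Real.log 3 = Real.log ((3 : ℝ) ^ (r - k)) := by
    rw [Real.log_pow, Nat.cast_sub hk]
  calc ((r : ℝ) - k) * Real.log 3 = ∑ z, Q z * (((r : ℝ) - k) * Real.log 3) := by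
        rw [← sum_mul, hs, one_mul]
    _ ≤ ∑ z, Real.negMulLog (Q z) := by
        refine sum_le_sum fun z _ => ?_
        rcases (hQ z).eq_or_lt with h | h
        · rw [← h]; simp
        · rw [hlog, Real.negMulLog, neg_mul, ← mul_neg, ← Real.log_inv]
          refine mul_le_mul_of_nonneg_left (Real.log_le_log (by positivity) ?_) h.le
          rw [le_inv_comm₀ (by positivity) h, inv_eq_one_div, le_div_iff₀ (by positivity), mul_comm]
          exact hle z

/-- a nonzero difference modulo `3 ^ k` generates `3 ^ k` -/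
theorem inv_of_diff {k r : ℕ} (hk : k ≤ r) {Q : ZMod (3 ^ r) → ℝ} {τ τ' : ZMod (3 ^ r)}
    (hne : τ.val % 3 ^ k ≠ τ'.val % 3 ^ k) (h : ∀ z, Q (z - τ) = Q (z - τ')) :
    ∀ z, ∀ n : ℕ, Q (z + n • (3 ^ k : ZMod (3 ^ r))) = Q z := by
  set g : ZMod (3 ^ r) := τ - τ' with hg
  have hstep : ∀ z, Q (z + g) = Q z := by
    intro z
    have := h (z + τ)
    rw [add_sub_cancel_right] at this
    rw [this, hg]
    congr 1
    ring
  have hmul : ∀ n : ℕ, ∀ z, Q (z + n • g) = Q z := by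
    intro n
    induction n with
    | zero => intro z; simp
    | succ n ih => intro z; rw [succ_nsmul, ← add_assoc, hstep, ih]
  -- valuation of g
  have hgk : ¬ 3 ^ k ∣ g.val := by
    intro hd
    apply hne
    have h1 : (ZMod.castHom (pow_dvd_pow 3 hk) (ZMod (3 ^ k))) g = 0 := by
      have : g = ((g.val : ℕ) : ZMod (3 ^ r)) := (ZMod.natCast_zmod_val g).symm
      rw [this, map_natCast]
      exact (ZMod.natCast_eq_zero_iff _ _).2 hd
    rw [hg, map_sub, sub_eq_zero] at h1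
    have e1 : τ = ((τ.val : ℕ) : ZMod (3 ^ r)) := (ZMod.natCast_zmod_val τ).symm
    have e2 : τ' = ((τ'.val : ℕ) : ZMod (3 ^ r)) := (ZMod.natCast_zmod_val τ').symm
    rw [e1, e2, map_natCast, map_natCast, ZMod.natCast_eq_natCast_iff'] at h1
    exact h1
  obtain ⟨a, ha, hgcd⟩ := (Nat.dvd_prime_pow Nat.prime_three).1 (Nat.gcd_dvd_right g.val (3 ^ r))
  have hak : a < k := by
    by_contra hcon
    exact hgk (((pow_dvd_pow 3 (not_lt.1 hcon)).trans (by rw [← hgcd])).trans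
      (Nat.gcd_dvd_left g.val (3 ^ r)))
  -- Bezout
  have hbez : ∃ n : ℕ, n • g = (3 ^ a : ZMod (3 ^ r)) := by
    have h1 : ((Nat.gcd g.val (3 ^ r) : ℕ) : ZMod (3 ^ r)) =
        ((g.val : ℕ) : ZMod (3 ^ r)) * ((Nat.gcdA g.val (3 ^ r) : ℤ) : ZMod (3 ^ r)) := by
      have := Nat.gcd_eq_gcd_ab g.val (3 ^ r)
      have h2 : ((Nat.gcd g.val (3 ^ r) : ℤ) : ZMod (3 ^ r)) = ((g.val * Nat.gcdA g.val (3 ^ r)
          + ((3 ^ r : ℕ) : ℤ) * Nat.gcdB g.val (3 ^ r) : ℤ) : ZMod (3 ^ r)) := by rw [this]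
      have h3 : (((3 ^ r : ℕ) : ℤ) : ZMod (3 ^ r)) = 0 := by
        rw [Int.cast_natCast]; exact ZMod.natCast_self _
      rw [Int.cast_add, Int.cast_mul, Int.cast_mul, h3, zero_mul, add_zero] at h2
      simpa using h2
    refine ⟨((Nat.gcdA g.val (3 ^ r) : ℤ) : ZMod (3 ^ r)).val, ?_⟩
    rw [nsmul_eq_mul, ZMod.natCast_zmod_val, mul_comm]
    have e : ((g.val : ℕ) : ZMod (3 ^ r)) = g := ZMod.natCast_zmod_val g
    rw [e, hgcd] at h1
    rw [← h1]
    push_cast
    rfl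
  obtain ⟨n₀, hn₀⟩ := hbez
  intro z n
  have : (n • (3 ^ k : ZMod (3 ^ r))) = (n * 3 ^ (k - a) * n₀) • g := by
    rw [mul_nsmul' , hn₀]
    have : (3 : ZMod (3 ^ r)) ^ k = (3 ^ (k - a)) * 3 ^ a := by
      rw [← pow_add]; congr 1; omega
    rw [this]
    simp only [nsmul_eq_mul]
    push_cast
    ring
  rw [this, hmul]

/-- strict growth -/
theorem growth_pos {k r : ℕ} (hk : k ≤ r) {ω δ : ℝ} (hω : 0 < ω) (hδ : 0 < δ)
    {R Q : ZMod (3 ^ r) → ℝ} (hR : R ∈ stdSimplex ℝ (ZMod (3 ^ r)))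
    (hQ : Q ∈ stdSimplex ℝ (ZMod (3 ^ r)))
    (h1 : ω ≤ ∑ j ∈ range (3 ^ k), Real.negMulLog (rd k R j))
    (h2 : ∑ z, Real.negMulLog (Q z) ≤ ((r : ℝ) - k) * Real.log 3 - δ) :
    0 < ∑ z, Real.negMulLog (cv R Q z) - ∑ z, Real.negMulLog (Q z) := by
  have hdouble : ∑ z, Real.negMulLog (Q z) = ∑ z, ∑ τ, R τ * Real.negMulLog (Q (z - τ)) := by
    rw [sum_comm]
    have : ∀ τ, ∑ z, R τ * Real.negMulLog (Q (z - τ)) = R τ * ∑ z, Real.negMulLog (Q z) := by
      intro τ
      rw [← mul_sum]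
      congr 1
      exact Fintype.sum_equiv (Equiv.subRight τ) _ _ fun z => rfl
    rw [sum_congr rfl fun τ _ => this τ, ← sum_mul, hR.2, one_mul]
  have hle : ∀ z, ∑ τ, R τ * Real.negMulLog (Q (z - τ)) ≤ Real.negMulLog (cv R Q z) := by
    intro z
    have := Real.concaveOn_negMulLog.le_map_sum (t := univ) (w := R) (p := fun τ => Q (z - τ))
      (fun i _ => hR.1 i) hR.2 (fun i _ => hQ.1 _)
    simpa [cv, smul_eq_mul] using this
  rw [hdouble, ← sum_sub_distrib]
  refine sum_pos' (fun z _ => sub_nonneg.2 (hle z)) ?_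
  by_contra hcon
  push Not at hcon
  -- all translates by the support agree
  have heq : ∀ z, ∀ τ τ', R τ ≠ 0 → R τ' ≠ 0 → Q (z - τ) = Q (z - τ') := by
    intro z τ τ' hτ hτ'
    by_contra hne
    have := (Real.strictConcaveOn_negMulLog.lt_map_sum_iff_of_nonneg (t := univ) (w := R)
      (p := fun τ => Q (z - τ)) (fun i _ => hR.1 i) hR.2 (fun i _ => hQ.1 _)).2
      ⟨τ, mem_univ _, τ', mem_univ _, hτ, hτ', hne⟩
    have h3 := hcon z (mem_univ z)
    simp only [smul_eq_mul] at this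
    unfold cv at h3
    linarith
  -- two points of the support that differ modulo `3 ^ k`
  have hex : ∃ τ τ', R τ ≠ 0 ∧ R τ' ≠ 0 ∧ τ.val % 3 ^ k ≠ τ'.val % 3 ^ k := by
    by_contra hno
    push Not at hno
    obtain ⟨τ₀, hτ₀⟩ : ∃ τ, R τ ≠ 0 := by
      by_contra hall
      push Not at hall
      have := hR.2
      rw [sum_eq_zero fun τ _ => hall τ] at this
      norm_num at this
    have hrd : ∀ j, rd k R j = if τ₀.val % 3 ^ k = j then 1 else 0 := by
      intro j
      unfold rd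
      split_ifs with hj
      · rw [← hR.2]
        refine sum_congr rfl fun τ _ => ?_
        split_ifs with h
        · rfl
        · by_contra hne
          exact h ((hno τ τ₀ (fun h0 => hne h0.symm) hτ₀).trans hj)
      · refine sum_eq_zero fun τ _ => ?_
        split_ifs with h
        · by_contra hne
          exact hj ((hno τ₀ τ hτ₀ hne).trans h)
        · rfl
    have : ∑ j ∈ range (3 ^ k), Real.negMulLog (rd k R j) = 0 := by
      refine sum_eq_zero fun j _ => ?_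
      rw [hrd]
      split_ifs <;> simp
    linarith
  obtain ⟨τ, τ', hτ, hτ', hne⟩ := hex
  have := ent_of_inv hk hQ.1 hQ.2 (inv_of_diff hk hne fun z => heq z τ τ' hτ hτ')
  linarith

/-- (CL) -/
theorem clem : CL := by
  intro k r hk ω δ hω hδ
  -- normalised version
  have hnorm : ∃ η : ℝ, 0 < η ∧ ∀ R ∈ stdSimplex ℝ (ZMod (3 ^ r)), ∀ Q ∈ stdSimplex ℝ (ZMod (3 ^ r)),
      (∑ j ∈ range (3 ^ k), Real.negMulLog (rd k R j) ≤ ω) ∨
      (((r : ℝ) - k) * Real.log 3 - δ ≤ ∑ z, Real.negMulLog (Q z)) ∨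
      η ≤ ∑ z, Real.negMulLog (cv R Q z) - ∑ z, Real.negMulLog (Q z) := by
    set F : (ZMod (3 ^ r) → ℝ) × (ZMod (3 ^ r) → ℝ) → ℝ :=
      fun x => ∑ z, Real.negMulLog (cv x.1 x.2 z) - ∑ z, Real.negMulLog (x.2 z) with hF
    set C : Set ((ZMod (3 ^ r) → ℝ) × (ZMod (3 ^ r) → ℝ)) :=
      (stdSimplex ℝ (ZMod (3 ^ r)) ×ˢ stdSimplex ℝ (ZMod (3 ^ r))) ∩
        ({x | ω ≤ ∑ j ∈ range (3 ^ k), Real.negMulLog (rd k x.1 j)} ∩
         {x | ∑ z, Real.negMulLog (x.2 z) ≤ ((r : ℝ) - k) * Real.log 3 - δ}) with hC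
    have hFc : Continuous F := by
      refine Continuous.sub (continuous_finsetSum _ fun z _ =>
        Real.continuous_negMulLog.comp (cv_cont r z)) (continuous_finsetSum _ fun z _ =>
        Real.continuous_negMulLog.comp ((continuous_apply z).comp continuous_snd))
    have hcl : IsClosed ({x : (ZMod (3 ^ r) → ℝ) × (ZMod (3 ^ r) → ℝ) |
        ω ≤ ∑ j ∈ range (3 ^ k), Real.negMulLog (rd k x.1 j)} ∩
         {x | ∑ z, Real.negMulLog (x.2 z) ≤ ((r : ℝ) - k) * Real.log 3 - δ}) := by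
      refine IsClosed.inter (isClosed_le continuous_const (continuous_finsetSum _ fun j _ =>
        Real.continuous_negMulLog.comp ((rd_cont k r j).comp continuous_fst)))
        (isClosed_le (continuous_finsetSum _ fun z _ =>
        Real.continuous_negMulLog.comp ((continuous_apply z).comp continuous_snd)) continuous_const)
    have hCc : IsCompact C :=
      ((isCompact_stdSimplex ℝ _).prod (isCompact_stdSimplex ℝ _)).inter_right hcl
    rcases C.eq_empty_or_nonempty with he | hne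
    · refine ⟨1, one_pos, fun R hR Q hQ => ?_⟩
      by_contra hcon
      push Not at hcon
      have : (R, Q) ∈ C := ⟨⟨hR, hQ⟩, hcon.1.le, hcon.2.1.le⟩
      rw [he] at this
      exact this
    · obtain ⟨x₀, hx₀, hmin⟩ := hCc.exists_isMinOn hne hFc.continuousOn
      refine ⟨F x₀, growth_pos hk hω hδ hx₀.1.1 hx₀.1.2 hx₀.2.1 hx₀.2.2, fun R hR Q hQ => ?_⟩
      by_contra hcon
      push Not at hcon
      have hm : (R, Q) ∈ C := ⟨⟨hR, hQ⟩, hcon.1.le, hcon.2.1.le⟩
      exact absurd (hmin hm) (not_le.2 hcon.2.2)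
  obtain ⟨η, hη, hmain⟩ := hnorm
  refine ⟨η, hη, fun R Q hR hQ => ?_⟩
  rcases (sum_nonneg fun τ _ => hR τ : (0 : ℝ) ≤ ∑ τ, R τ).eq_or_lt with hS | hS
  · left
    have h0 : ∀ τ, R τ = 0 := fun τ =>
      (sum_eq_zero_iff_of_nonneg fun τ _ => hR τ).1 hS.symm τ (mem_univ τ)
    have : ∀ j, rd k R j = 0 := by
      intro j
      unfold rd
      exact sum_eq_zero fun τ _ => by rw [h0 τ]; simp
    rw [← hS]
    simp [this, LL]
  rcases (sum_nonneg fun τ _ => hQ τ : (0 : ℝ) ≤ ∑ τ, Q τ).eq_or_lt with hT | hT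
  · right; left
    have h0 : ∀ τ, Q τ = 0 := fun τ =>
      (sum_eq_zero_iff_of_nonneg fun τ _ => hQ τ).1 hT.symm τ (mem_univ τ)
    rw [← hT]
    unfold ent
    simp [h0, LL]
  set S := ∑ τ, R τ with hSd
  set T := ∑ τ, Q τ with hTd
  set R' : ZMod (3 ^ r) → ℝ := fun τ => R τ / S with hR'
  set Q' : ZMod (3 ^ r) → ℝ := fun τ => Q τ / T with hQ'
  have hR'm : R' ∈ stdSimplex ℝ (ZMod (3 ^ r)) :=
    ⟨fun τ => div_nonneg (hR τ) hS.le, by rw [hR', ← sum_div]; exact div_self hS.ne'⟩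
  have hQ'm : Q' ∈ stdSimplex ℝ (ZMod (3 ^ r)) :=
    ⟨fun τ => div_nonneg (hQ τ) hT.le, by rw [hQ', ← sum_div]; exact div_self hT.ne'⟩
  have hRe : ∀ τ, R τ = S * R' τ := fun τ => by rw [hR']; field_simp
  have hQe : ∀ τ, Q τ = T * Q' τ := fun τ => by rw [hQ']; field_simp
  have hrd : ∀ j, rd k R j = S * rd k R' j := by
    intro j
    unfold rd
    rw [mul_sum]
    refine sum_congr rfl fun τ _ => ?_
    split_ifs
    · exact hRe τ
    · simp
  have hcv : ∀ z, cv R Q z = (S * T) * cv R' Q' z := by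
    intro z
    unfold cv
    rw [mul_sum]
    refine sum_congr rfl fun τ _ => ?_
    rw [hRe, hQe]; ring
  have hcvs : ∑ z, cv R Q z = S * T := by
    unfold cv
    rw [sum_comm]
    have : ∀ τ, ∑ z, R τ * Q (z - τ) = R τ * T := by
      intro τ
      rw [← mul_sum]
      congr 1
      exact Fintype.sum_equiv (Equiv.subRight τ) _ _ fun z => rfl
    simp only [this]
    rw [← sum_mul]
  have hentQ : ent Q = T * ∑ z, Real.negMulLog (Q' z) := by
    unfold ent
    rw [mul_sum]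
    refine sum_congr rfl fun z _ => ?_
    rw [← hTd, hQe z, LL_scale hT]
  have hentcv : ent (cv R Q) = (S * T) * ∑ z, Real.negMulLog (cv R' Q' z) := by
    unfold ent
    rw [hcvs]
    refine Eq.trans ?_ (mul_sum univ (fun z => Real.negMulLog (cv R' Q' z)) (S * T)).symm
    refine sum_congr rfl fun z _ => ?_
    rw [hcv z, LL_scale (mul_pos hS hT)]
  rcases hmain R' hR'm Q' hQ'm with h | h | h
  · left
    calc ∑ j ∈ range (3 ^ k), LL (rd k R j) S = S * ∑ j ∈ range (3 ^ k), Real.negMulLog (rd k R' j) := by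
          rw [mul_sum]
          exact sum_congr rfl fun j _ => by rw [hrd, LL_scale hS]
      _ ≤ ω * S := by rw [mul_comm]; exact mul_le_mul_of_nonneg_right h hS.le
  · right; left
    rw [hentQ, mul_comm]
    exact mul_le_mul_of_nonneg_left h hT.le
  · right; right
    rw [hentQ, hentcv]
    have := mul_le_mul_of_nonneg_left h (mul_pos hS hT).le
    linarith [this]

/-- module (CL) -/
theorem cl : CL := clem

end Pool.Agent.Helper3.Q1
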