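import Pool.Agent.Helper50.Q1.Canon

/-! AN2: the density is large for most residues. -/

namespace Pool.Agent.Helper50.Q1

open Finset Pool.Agent.Helper3.ND Pool.Agent.Helper3.TD Pool.Agent.Helper3.Q1

open Classical in
/-- indicator of a proposition -/
noncomputable def bl (P : Prop) : ℝ := if P then 1 else 0

theorem bl_nonneg (P : Prop) : 0 ≤ bl P := by unfold bl; split_ifs <;> norm_num

theorem bl_le_one (P : Prop) : bl P ≤ 1 := by unfold bl; split_ifs <;> norm_num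

theorem bl_true {P : Prop} (h : P) : bl P = 1 := by unfold bl; rw [if_pos h]

theorem bl_false {P : Prop} (h : ¬ P) : bl P = 0 := by unfold bl; rw [if_neg h]

theorem bl_mono {P Q : Prop} (h : P → Q) : bl P ≤ bl Q := by
  by_cases hP : P
  · rw [bl_true hP, bl_true (h hP)]
  · rw [bl_false hP]; exact bl_nonneg Q

/-- a positive proportion of residues with at least half of the mean -/
theorem test_prob {C c : ℝ} (hC : 0 < C) (hc : 0 < c) {n0 : ℕ} (hn0 : 1 ≤ n0)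
    (H : ∀ t j m : ℕ, n0 ≤ m → m ≤ j → (2 * (j : ℝ) - t) ^ 2 ≤ t →
      Av j (fun x => |Dn j t j x - Dn m t j x|) ≤ C / m * mass t j (fun _ => True) ∧
      c / Real.sqrt t ≤ mass t j (fun _ => True)) :
    ∃ c0 : ℝ, 0 < c0 ∧ c0 ≤ 1 ∧ ∃ m1 : ℕ, n0 ≤ m1 ∧ ∀ t j m : ℕ, m1 ≤ m → m ≤ j → (2 * (j : ℝ) - t) ^ 2 ≤ t → 1 ≤ t →
      ∑ x ∈ range (3 ^ m), bl (Dn m t j (x : ℤ) < mass t j (fun _ => True) / 2) ≤ (1 - c0) * 3 ^ m := by
  obtain ⟨m1, hm1⟩ : ∃ m1 : ℕ, m1 = max n0 ⌈8 * C⌉₊ := ⟨_, rfl⟩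
  have hm1n : n0 ≤ m1 := by rw [hm1]; exact le_max_left _ _
  have hm1C : 8 * C ≤ m1 := by
    refine le_trans (Nat.le_ceil _) ?_
    exact_mod_cast (by rw [hm1]; exact le_max_right _ _ : ⌈8 * C⌉₊ ≤ m1)
  have hm1pos : (0 : ℝ) < m1 := by linarith
  refine ⟨1 / (4 * 3 ^ m1), by positivity, ?_, m1, hm1n, ?_⟩
  · rw [div_le_one (by positivity)]
    have : (1 : ℝ) ≤ 3 ^ m1 := one_le_pow₀ (by norm_num)
    linarith
  intro t j m hm hmj hcen ht
  obtain ⟨M, hM⟩ : ∃ M : ℝ, M = mass t j (fun _ => True) := ⟨_, rfl⟩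
  obtain ⟨hA, hB⟩ := H t j m (by omega) hmj hcen
  obtain ⟨hA1, _⟩ := H t j m1 hm1n (by omega) hcen
  rw [← hM] at hA hB hA1 ⊢
  have htpos : (0 : ℝ) < t := by exact_mod_cast ht
  have hMpos : 0 < M := lt_of_lt_of_le (div_pos hc (Real.sqrt_pos.2 htpos)) hB
  have hmpos : (0 : ℝ) < m := lt_of_lt_of_le hm1pos (by exact_mod_cast hm)
  -- pointwise
  have hpt : ∀ x : ℤ, Dn m t j x ≤ (M / 2 + (3 ^ m1 * M) * (1 - bl (Dn m t j x < M / 2))) +
      (|Dn j t j x - Dn m t j x| + |Dn j t j x - Dn m1 t j x|) := by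
    intro x
    have h1 := abs_nonneg (Dn j t j x - Dn m t j x)
    have h2 := abs_nonneg (Dn j t j x - Dn m1 t j x)
    by_cases hx : Dn m t j x < M / 2
    · rw [bl_true hx]
      linarith
    · rw [bl_false hx]
      have h3 : Dn m1 t j x ≤ 3 ^ m1 * M := by rw [hM]; exact D_le _ _ _ _ _
      have h4 := neg_abs_le (Dn j t j x - Dn m t j x)
      have h5 := le_abs_self (Dn j t j x - Dn m1 t j x)
      linarith
  have hAv := Av_mono (N := j) hpt
  have e1 : Av j (Dn m t j) = M := by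
    rw [hM]
    have : Av j (Dn m t j) = Av m (Dn m t j) := Av_le (D_per m t j _) hmj
    rw [this]
    exact Av_D m t j _
  have hbper : Per m (fun x => bl (Dn m t j x < M / 2)) := by
    intro x
    simp only [Dn_per]
  have e3 : Av j (fun x => M / 2 + (3 ^ m1 * M) * (1 - bl (Dn m t j x < M / 2))) =
      M / 2 + (3 ^ m1 * M) * (1 - Av m (fun x => bl (Dn m t j x < M / 2))) := by
    rw [← Av_le hbper hmj]
    unfold Av
    rw [sum_add_distrib, ← mul_sum, sum_sub_distrib, sum_const, sum_const, card_range]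
    have h3 : ((3 ^ j : ℕ) : ℝ) = 3 ^ j := by push_cast; rfl
    obtain ⟨S, hS⟩ : ∃ S : ℝ, S = ∑ x ∈ range (3 ^ j), bl (Dn m t j (x : ℤ) < M / 2) := ⟨_, rfl⟩
    rw [← hS]
    simp only [nsmul_eq_mul, h3, mul_one]
    field_simp
  have e2 : Av j (fun x => (M / 2 + (3 ^ m1 * M) * (1 - bl (Dn m t j x < M / 2))) +
      (|Dn j t j x - Dn m t j x| + |Dn j t j x - Dn m1 t j x|)) =
      (M / 2 + (3 ^ m1 * M) * (1 - Av m (fun x => bl (Dn m t j x < M / 2)))) +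
      (Av j (fun x => |Dn j t j x - Dn m t j x|) + Av j (fun x => |Dn j t j x - Dn m1 t j x|)) := by
    rw [← e3, ← Av_add, ← Av_add]
  rw [e2] at hAv
  have e1' : Av j (fun x => Dn m t j x) = M := e1
  rw [e1'] at hAv
  obtain ⟨B, hBd⟩ : ∃ B : ℝ, B = Av m (fun x => bl (Dn m t j x < M / 2)) := ⟨_, rfl⟩
  rw [← hBd] at hAv
  have hsum : ∑ x ∈ range (3 ^ m), bl (Dn m t j (x : ℤ) < M / 2) = B * 3 ^ m := by
    rw [hBd]; unfold Av
    rw [div_mul_cancel₀ _ (by positivity)]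
  rw [hsum]
  apply mul_le_mul_of_nonneg_right _ (by positivity)
  have h5 : C / m ≤ 1 / 8 := by
    rw [div_le_div_iff₀ hmpos (by norm_num)]
    have : (m1 : ℝ) ≤ m := by exact_mod_cast hm
    linarith
  have h6 : C / m1 ≤ 1 / 8 := by
    rw [div_le_div_iff₀ hm1pos (by norm_num)]
    linarith
  have h7 : M ≤ M / 2 + 3 ^ m1 * M * (1 - B) + (1 / 8 * M + 1 / 8 * M) := by
    have a1 := mul_le_mul_of_nonneg_right h5 hMpos.le
    have a2 := mul_le_mul_of_nonneg_right h6 hMpos.le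
    linarith
  have h8 : 1 / 4 ≤ 3 ^ m1 * (1 - B) := by
    have : M * (1 / 4) ≤ M * (3 ^ m1 * (1 - B)) := by linarith
    exact le_of_mul_le_mul_left this hMpos
  have h9 : 1 / (4 * 3 ^ m1) ≤ 1 - B := by
    rw [div_le_iff₀ (by positivity)]
    linarith
  linarith

/-- Markov inequality for the approximation -/
theorem appr_prob {C c : ℝ} (hc : 0 < c) {n0 : ℕ}
    (H : ∀ t j m : ℕ, n0 ≤ m → m ≤ j → (2 * (j : ℝ) - t) ^ 2 ≤ t →
      Av j (fun x => |Dn j t j x - Dn m t j x|) ≤ C / m * mass t j (fun _ => True) ∧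
      c / Real.sqrt t ≤ mass t j (fun _ => True)) (t j m : ℕ) (hm : n0 ≤ m) (hmj : m ≤ j)
      (hcen : (2 * (j : ℝ) - t) ^ 2 ≤ t) (ht : 1 ≤ t) :
      ∑ x ∈ range (3 ^ j), bl (mass t j (fun _ => True) / 4 < |Dn j t j (x : ℤ) - Dn m t j (x : ℤ)|) ≤
        4 * C / m * 3 ^ j := by
  obtain ⟨M, hM⟩ : ∃ M : ℝ, M = mass t j (fun _ => True) := ⟨_, rfl⟩
  obtain ⟨hA, hB⟩ := H t j m hm hmj hcen
  rw [← hM] at hA hB ⊢
  have htpos : (0 : ℝ) < t := by exact_mod_cast ht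
  have hMpos : 0 < M := lt_of_lt_of_le (div_pos hc (Real.sqrt_pos.2 htpos)) hB
  have h1 : ∀ x : ℤ, bl (M / 4 < |Dn j t j x - Dn m t j x|) ≤ 4 / M * |Dn j t j x - Dn m t j x| := by
    intro x
    by_cases hx : M / 4 < |Dn j t j x - Dn m t j x|
    · rw [bl_true hx, div_mul_eq_mul_div, le_div_iff₀ hMpos]
      linarith
    · rw [bl_false hx]
      have := abs_nonneg (Dn j t j x - Dn m t j x)
      positivity
  calc ∑ x ∈ range (3 ^ j), bl (M / 4 < |Dn j t j (x : ℤ) - Dn m t j (x : ℤ)|)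
      ≤ ∑ x ∈ range (3 ^ j), 4 / M * |Dn j t j (x : ℤ) - Dn m t j (x : ℤ)| := sum_le_sum fun x _ => h1 _
    _ = 4 / M * (Av j (fun x => |Dn j t j x - Dn m t j x|) * 3 ^ j) := by
        rw [← mul_sum]; unfold Av; field_simp
    _ ≤ 4 / M * ((C / m * M) * 3 ^ j) := by gcongr
    _ = 4 * C / m * 3 ^ j := by field_simp

/-- the main induction on the number of tests -/
theorem blocks (h0 : AN0) {C c : ℝ} (hC : 0 < C) (hc : 0 < c) {n0 : ℕ}
    (H : ∀ t j m : ℕ, n0 ≤ m → m ≤ j → (2 * (j : ℝ) - t) ^ 2 ≤ t →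
      Av j (fun x => |Dn j t j x - Dn m t j x|) ≤ C / m * mass t j (fun _ => True) ∧
      c / Real.sqrt t ≤ mass t j (fun _ => True)) {c0 : ℝ} (hc0 : 0 < c0) (hc01 : c0 ≤ 1) (m : ℕ) (hm : n0 ≤ m)
    (hm1 : 1 ≤ m)
    (HT : ∀ t j : ℕ, m ≤ j → (2 * (j : ℝ) - t) ^ 2 ≤ t → 1 ≤ t →
      ∑ x ∈ range (3 ^ m), bl (Dn m t j (x : ℤ) < mass t j (fun _ => True) / 2) ≤ (1 - c0) * 3 ^ m) (L : ℕ) :
    ∀ b E t j : ℕ, E + 3 * m * b ≤ L → 2 * (j + 1) ≤ t + E → t ≤ 2 * (j + 1) + E →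
      (L + 1) ^ 2 + 2 * m + L + 4 + 5 * m * b ≤ t →
      ∑ y ∈ range (3 ^ j), bl (Dn (j + 1) t (j + 1) (2 + 3 * (y : ℤ)) < (3 / 32) ^ (m * b) * (3 * c / 8) / Real.sqrt t) ≤
        ((1 - c0) ^ b + b * (4 * C / m)) * 3 ^ j := by
  intro b
  induction b with
  | zero =>
    intro E t j _ _ _ _
    calc ∑ y ∈ range (3 ^ j), bl (Dn (j + 1) t (j + 1) (2 + 3 * (y : ℤ)) < (3 / 32) ^ (m * 0) * (3 * c / 8) / Real.sqrt t)
        ≤ ∑ y ∈ range (3 ^ j), (1 : ℝ) := sum_le_sum fun y _ => bl_le_one _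
      _ = _ := by simp
  | succ b ih =>
    intro E t j hE h1 h2 ht
    have e5 : 5 * m * (b + 1) = 5 * m * b + 5 * m := by ring
    have e3 : 3 * m * (b + 1) = 3 * m * b + 3 * m := by ring
    have hLE : E ≤ L := by
      have := Nat.zero_le (3 * m * (b + 1))
      omega
    have hLsq : (L + 1) ^ 2 = L * L + 2 * L + 1 := by ring
    have hmj : m ≤ j := by
      have := Nat.zero_le (5 * m * (b + 1))
      have := Nat.zero_le (L * L)
      omega
    obtain ⟨n, rfl⟩ := Nat.exists_eq_add_of_le hmj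
    obtain ⟨t', rfl⟩ : ∃ t', t = t' + 1 := ⟨t - 1, by omega⟩
    have hcen : (2 * ((m + n : ℕ) : ℝ) - (t' : ℝ)) ^ 2 ≤ t' := by
      have a1 : (2 * ((m + n : ℕ) : ℝ) - (t' : ℝ)) ≤ L + 1 := by
        have : 2 * (m + n) ≤ t' + (L + 1) := by omega
        have : ((2 * (m + n) : ℕ) : ℝ) ≤ ((t' + (L + 1) : ℕ) : ℝ) := by exact_mod_cast this
        push_cast at this ⊢
        linarith
      have a2 : -((L : ℝ) + 1) ≤ (2 * ((m + n : ℕ) : ℝ) - (t' : ℝ)) := by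
        have : t' ≤ 2 * (m + n) + (L + 1) := by omega
        have : ((t' : ℕ) : ℝ) ≤ ((2 * (m + n) + (L + 1) : ℕ) : ℝ) := by exact_mod_cast this
        push_cast at this ⊢
        linarith
      have a3 : ((L : ℝ) + 1) ^ 2 ≤ t' := by
        have : (L + 1) ^ 2 ≤ t' := by
          have := Nat.zero_le (5 * m * (b + 1))
          omega
        exact_mod_cast this
      refine le_trans ?_ a3
      exact sq_le_sq' a2 a1
    have ht'1 : 1 ≤ t' := by omega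
    obtain ⟨M, hM⟩ : ∃ M : ℝ, M = mass t' (m + n) (fun _ => True) := ⟨_, rfl⟩
    obtain ⟨_, hB⟩ := H t' (m + n) m hm (by omega) hcen
    have ht'pos : (0 : ℝ) < t' := by exact_mod_cast ht'1
    obtain ⟨ε, hε⟩ : ∃ ε : ℝ, ε = (3 / 32) ^ (m * b) * (3 * c / 8) := ⟨_, rfl⟩
    have hεpos : 0 < ε := by rw [hε]; positivity
    have hε1 : (3 / 32 : ℝ) ^ (m * (b + 1)) * (3 * c / 8) = (3 / 32) ^ m * ε := by
      rw [hε, mul_add, mul_one, pow_add]; ring
    have hst1 : 0 < Real.sqrt ((t' + 1 : ℕ) : ℝ) := Real.sqrt_pos.2 (by positivity)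
    have hst' : 0 < Real.sqrt (t' : ℝ) := Real.sqrt_pos.2 ht'pos
    -- the three indicators
    obtain ⟨ap, hap⟩ : ∃ ap : ℤ → ℝ, ap = fun x => bl (M / 4 < |Dn (m + n) t' (m + n) x - Dn m t' (m + n) x|) := ⟨_, rfl⟩
    obtain ⟨te, hte⟩ : ∃ te : ℤ → ℝ, te = fun x => bl (Dn m t' (m + n) x < M / 2) := ⟨_, rfl⟩
    obtain ⟨nb, hnb⟩ : ∃ nb : ℕ → ℤ → ℝ, nb = fun d z => bl (Dn (n + 1) (t' + 1 - d) (n + 1) (2 + 3 * z) <
      ε / Real.sqrt ((t' + 1 - d : ℕ) : ℝ)) := ⟨_, rfl⟩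
    have hdle : ∀ y, dm m y + 1 ≤ t' + 1 := by
      intro y
      have := dm_le m y
      omega
    have hpt : ∀ y : ℤ, bl (Dn (m + n + 1) (t' + 1) (m + n + 1) (2 + 3 * y) <
        (3 / 32) ^ (m * (b + 1)) * (3 * c / 8) / Real.sqrt ((t' + 1 : ℕ) : ℝ)) ≤
        ap (1 + 2 * y) + te (1 + 2 * y) * nb (dm m y) (sg^[m] y) := by
      intro y
      rw [hε1]
      by_cases hbad : Dn (m + n + 1) (t' + 1) (m + n + 1) (2 + 3 * y) < (3 / 32) ^ m * ε / Real.sqrt ((t' + 1 : ℕ) : ℝ)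
      · rw [bl_true hbad]
        have hap0 : 0 ≤ ap (1 + 2 * y) := by rw [hap]; exact bl_nonneg _
        by_cases hA : M / 4 < |Dn (m + n) t' (m + n) (1 + 2 * y) - Dn m t' (m + n) (1 + 2 * y)|
        · have : ap (1 + 2 * y) = 1 := by rw [hap]; exact bl_true hA
          rw [this]
          have h3 : 0 ≤ te (1 + 2 * y) * nb (dm m y) (sg^[m] y) := by
            rw [hte, hnb]
            exact mul_nonneg (bl_nonneg _) (bl_nonneg _)
          linarith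
        · have hT : Dn m t' (m + n) (1 + 2 * y) < M / 2 := by
            by_contra hT
            have h3 := Dn_test h0 t' (m + n) y
            have h4 := neg_abs_le (Dn (m + n) t' (m + n) (1 + 2 * y) - Dn m t' (m + n) (1 + 2 * y))
            have h5 : c / Real.sqrt ((t' + 1 : ℕ) : ℝ) ≤ M := by
              rw [hM]
              refine le_trans ?_ hB
              apply div_le_div_of_nonneg_left hc.le hst'
              apply Real.sqrt_le_sqrt
              push_cast; linarith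
            have h6 : (3 / 32 : ℝ) ^ m * ε ≤ 3 * c / 8 := by
              rw [hε, ← mul_assoc]
              have : (3 / 32 : ℝ) ^ m * (3 / 32) ^ (m * b) ≤ 1 := by
                apply mul_le_one₀ (pow_le_one₀ (by norm_num) (by norm_num)) (by positivity)
                exact pow_le_one₀ (by norm_num) (by norm_num)
              nlinarith
            have h7 : (3 / 32 : ℝ) ^ m * ε / Real.sqrt ((t' + 1 : ℕ) : ℝ) ≤ 3 / 8 * (c / Real.sqrt ((t' + 1 : ℕ) : ℝ)) := by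
              rw [mul_div_assoc', div_le_div_iff_of_pos_right hst1]
              linarith
            rw [not_lt] at hA hT
            linarith
          have hN : Dn (n + 1) (t' + 1 - dm m y) (n + 1) (2 + 3 * sg^[m] y) <
              ε / Real.sqrt ((t' + 1 - dm m y : ℕ) : ℝ) := by
            have h3 := Dn_block' h0 m (t' + 1 - dm m y) (n + 1) y
            rw [Nat.sub_add_cancel (by have := hdle y; omega), show n + 1 + m = m + n + 1 by ring] at h3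
            have h4 : (3 / 32 : ℝ) ^ m * Dn (n + 1) (t' + 1 - dm m y) (n + 1) (2 + 3 * sg^[m] y) <
                (3 / 32) ^ m * (ε / Real.sqrt ((t' + 1 : ℕ) : ℝ)) := by
              rw [mul_div_assoc'] 
              exact lt_of_le_of_lt h3 hbad
            have h5 := lt_of_mul_lt_mul_left h4 (by positivity)
            refine lt_of_lt_of_le h5 ?_
            apply div_le_div_of_nonneg_left hεpos.le
            · apply Real.sqrt_pos.2
              have : 0 < t' + 1 - dm m y := by have := hdle y; omega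
              exact_mod_cast this
            · apply Real.sqrt_le_sqrt
              exact_mod_cast Nat.sub_le _ _
          have h3 : te (1 + 2 * y) = 1 := by rw [hte]; exact bl_true hT
          have h4 : nb (dm m y) (sg^[m] y) = 1 := by rw [hnb]; exact bl_true hN
          rw [h3, h4]
          linarith
      · rw [bl_false hbad, hap, hte, hnb]
        have := mul_nonneg (bl_nonneg (Dn m t' (m + n) (1 + 2 * y) < M / 2))
          (bl_nonneg (Dn (n + 1) (t' + 1 - dm m y) (n + 1) (2 + 3 * sg^[m] y) < ε / Real.sqrt ((t' + 1 - dm m y : ℕ) : ℝ)))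
        have h2 := bl_nonneg (M / 4 < |Dn (m + n) t' (m + n) (1 + 2 * y) - Dn m t' (m + n) (1 + 2 * y)|)
        simp only
        linarith
    have hsumA : ∑ y ∈ range (3 ^ (m + n)), ap (1 + 2 * (y : ℤ)) ≤ 4 * C / m * 3 ^ (m + n) := by
      rw [sum_affine (m + n) (f := ap) ?_ 2 1 (by norm_num)]
      · rw [hap, hM]
        exact appr_prob hc H t' (m + n) m hm (by omega) hcen ht'1
      · intro x
        rw [hap]
        simp only
        rw [Dn_per, show (3 : ℤ) ^ (m + n) = 3 ^ m * 3 ^ n by rw [pow_add], Dn_per_mul]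
    have hsumT : ∑ i ∈ range (3 ^ m), te (1 + 2 * (i : ℤ)) ≤ (1 - c0) * 3 ^ m := by
      rw [sum_affine m (f := te) ?_ 2 1 (by norm_num)]
      · rw [hte, hM]
        exact HT t' (m + n) (by omega) hcen ht'1
      · intro x
        rw [hte]
        simp only
        rw [Dn_per]
    have hin : ∀ i : ℕ, ∑ v ∈ range (3 ^ n), nb (dm m (i : ℤ)) (sg^[m] (i : ℤ) + 2 ^ dm m (i : ℤ) * (v : ℤ)) ≤
        ((1 - c0) ^ b + b * (4 * C / m)) * 3 ^ n := by
      intro i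
      rw [sum_affine n (f := nb (dm m (i : ℤ))) ?_ _ _ (two_pow_not_dvd _)]
      · rw [hnb]
        simp only
        have hd1 := dm_ge m (i : ℤ)
        have hd2 := dm_le m (i : ℤ)
        have hd3 := hdle (i : ℤ)
        have := ih (E + 3 * m) (t' + 1 - dm m (i : ℤ)) n (by omega) (by omega) (by omega) (by omega)
        rw [hε]
        exact this
      · intro z
        rw [hnb]
        simp only
        rw [show 2 + 3 * (z + 3 ^ n) = 2 + 3 * z + 3 ^ (n + 1) by ring, Dn_per]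
    have hβ : 0 ≤ ((1 - c0) ^ b + b * (4 * C / m)) := by
      have : 0 ≤ 1 - c0 := by linarith
      positivity
    calc ∑ y ∈ range (3 ^ (m + n)), bl (Dn (m + n + 1) (t' + 1) (m + n + 1) (2 + 3 * (y : ℤ)) <
          (3 / 32) ^ (m * (b + 1)) * (3 * c / 8) / Real.sqrt ((t' + 1 : ℕ) : ℝ))
        ≤ ∑ y ∈ range (3 ^ (m + n)), (ap (1 + 2 * (y : ℤ)) + te (1 + 2 * (y : ℤ)) * nb (dm m (y : ℤ)) (sg^[m] (y : ℤ))) :=
          sum_le_sum fun y _ => hpt _
      _ = ∑ y ∈ range (3 ^ (m + n)), ap (1 + 2 * (y : ℤ)) +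
          ∑ y ∈ range (3 ^ (m + n)), te (1 + 2 * (y : ℤ)) * nb (dm m (y : ℤ)) (sg^[m] (y : ℤ)) := sum_add_distrib
      _ = ∑ y ∈ range (3 ^ (m + n)), ap (1 + 2 * (y : ℤ)) +
          ∑ i ∈ range (3 ^ m), te (1 + 2 * (i : ℤ)) *
            ∑ v ∈ range (3 ^ n), nb (dm m (i : ℤ)) (sg^[m] (i : ℤ) + 2 ^ dm m (i : ℤ) * (v : ℤ)) := by
          congr 1
          rw [sum_pow m n (fun y => te (1 + 2 * y) * nb (dm m y) (sg^[m] y))]
          refine sum_congr rfl fun i _ => ?_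
          rw [mul_sum]
          refine sum_congr rfl fun v _ => ?_
          rw [dm_shift, sgm_shift]
          congr 1
          rw [hte]
          simp only
          rw [show 1 + 2 * ((i : ℤ) + 3 ^ m * (v : ℤ)) = 1 + 2 * (i : ℤ) + 3 ^ m * (2 * (v : ℤ)) by ring, Dn_per_mul]
      _ ≤ 4 * C / m * 3 ^ (m + n) + ∑ i ∈ range (3 ^ m), te (1 + 2 * (i : ℤ)) * (((1 - c0) ^ b + b * (4 * C / m)) * 3 ^ n) := by
          refine add_le_add hsumA (sum_le_sum fun i _ => mul_le_mul_of_nonneg_left (hin i) ?_)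
          rw [hte]; exact bl_nonneg _
      _ ≤ 4 * C / m * 3 ^ (m + n) + ((1 - c0) * 3 ^ m) * (((1 - c0) ^ b + b * (4 * C / m)) * 3 ^ n) := by
          rw [← sum_mul]
          gcongr
      _ ≤ ((1 - c0) ^ (b + 1) + ((b + 1 : ℕ) : ℝ) * (4 * C / m)) * 3 ^ (m + n) := by
          rw [pow_add (3 : ℝ), pow_succ (1 - c0)]
          have h3 : 0 ≤ c0 * (b * (4 * C / m)) := by positivity
          have h4 : (0 : ℝ) < 3 ^ m * 3 ^ n := by positivity
          push_cast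
          nlinarith

/-- exponent and value of the first step on the class `1` modulo `3` -/
theorem class_one (i : ℕ) (hi : i < 3) : ∃ a : ℕ, 2 ≤ a ∧ a ≤ 6 ∧ ∃ s : ℤ, ∀ v : ℤ,
    3 * (2 + 3 * (s + 2 ^ a * v)) = 2 ^ a * (1 + 3 * ((i : ℤ) + 3 * v)) - 1 := by
  interval_cases i
  · exact ⟨4, by norm_num, by norm_num, 1, fun v => by norm_num; ring⟩
  · exact ⟨2, by norm_num, by norm_num, 1, fun v => by norm_num; ring⟩
  · exact ⟨6, by norm_num, by norm_num, 49, fun v => by norm_num; ring⟩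

theorem an2 : AN0 → AN1 → AN2 := by
  intro h0 h1 η hη
  obtain ⟨C, hC, c, hc, n0, hn0, H⟩ := h1
  obtain ⟨c0, hc0, hc01, m1, hm1, HT⟩ := test_prob hC hc hn0 H
  -- number of tests
  obtain ⟨J, hJ⟩ : ∃ J : ℕ, (1 - c0) ^ J < η / 2 := exists_pow_lt_of_lt_one (by positivity) (by linarith)
  obtain ⟨m, hm⟩ : ∃ m : ℕ, m = max m1 ⌈8 * C * J / η⌉₊ := ⟨_, rfl⟩
  have hmm1 : m1 ≤ m := by rw [hm]; exact le_max_left _ _
  have hm1' : 1 ≤ m := by omega
  have hmpos : (0 : ℝ) < m := by exact_mod_cast hm1'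
  have hmJ : (J : ℝ) * (4 * C / m) ≤ η / 2 := by
    have h2 : 8 * C * J / η ≤ m := by
      refine le_trans (Nat.le_ceil _) ?_
      exact_mod_cast (by rw [hm]; exact le_max_right _ _ : ⌈8 * C * J / η⌉₊ ≤ m)
    rw [div_le_iff₀ hη] at h2
    rw [mul_div_assoc', div_le_iff₀ hmpos]
    linarith
  obtain ⟨β, hβ⟩ : ∃ β : ℝ, β = (1 - c0) ^ J + J * (4 * C / m) := ⟨_, rfl⟩
  have hβη : β ≤ η := by rw [hβ]; linarith
  obtain ⟨L, hL⟩ : ∃ L : ℕ, L = 4 + 3 * m * J := ⟨_, rfl⟩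
  have hbl := blocks h0 hC hc H hc0 hc01 m (by omega) hm1' (fun t j => HT t j m hmm1) L J 4
  obtain ⟨ε, hε⟩ : ∃ ε : ℝ, ε = (3 / 32) ^ (m * J) * (3 * c / 8) := ⟨_, rfl⟩
  have hεpos : 0 < ε := by rw [hε]; positivity
  rw [← hε, ← hβ] at hbl
  obtain ⟨T0, hT0⟩ : ∃ T0 : ℕ, T0 = (L + 1) ^ 2 + 2 * m + L + 4 + 5 * m * J := ⟨_, rfl⟩
  rw [← hT0] at hbl
  refine ⟨ε / 50, by positivity, T0 + 4, ?_⟩
  intro k hk
  obtain ⟨k', rfl⟩ : ∃ k', k = k' + 1 := ⟨k - 1, by omega⟩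
  have hkpos : (0 : ℝ) < ((k' + 1 : ℕ) : ℝ) := by positivity
  have hsk : 0 < Real.sqrt ((k' + 1 : ℕ) : ℝ) := Real.sqrt_pos.2 hkpos
  have hsq : ∀ s : ℕ, s ≤ 4 * (k' + 1) → Real.sqrt (s : ℝ) ≤ 2 * Real.sqrt ((k' + 1 : ℕ) : ℝ) := by
    intro s hs
    rw [Real.sqrt_le_left (by positivity), mul_pow, Real.sq_sqrt hkpos.le]
    have : (s : ℝ) ≤ ((4 * (k' + 1) : ℕ) : ℝ) := by exact_mod_cast hs
    push_cast at this ⊢
    linarith
  have hcmp : ∀ s : ℕ, 0 < s → s ≤ 4 * (k' + 1) →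
      25 * (ε / 50 / Real.sqrt ((k' + 1 : ℕ) : ℝ)) ≤ ε / Real.sqrt (s : ℝ) := by
    intro s hs0 hs
    have h2 := hsq s hs
    have h3 : 0 < Real.sqrt (s : ℝ) := Real.sqrt_pos.2 (by exact_mod_cast hs0)
    calc 25 * (ε / 50 / Real.sqrt ((k' + 1 : ℕ) : ℝ)) = ε / (2 * Real.sqrt ((k' + 1 : ℕ) : ℝ)) := by field_simp; norm_num
      _ ≤ ε / Real.sqrt (s : ℝ) := div_le_div_of_nonneg_left hεpos.le h3 h2
  obtain ⟨δ, hδ⟩ : ∃ δ : ℝ, δ = ε / 50 / Real.sqrt ((k' + 1 : ℕ) : ℝ) := ⟨_, rfl⟩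
  have hδpos : 0 < δ := by rw [hδ]; positivity
  rw [← hδ] at hcmp
  obtain ⟨g, hg⟩ : ∃ g : ℤ → ℝ, g = fun x => bl (¬ (3 : ℤ) ∣ x ∧
    Dn (k' + 1 + 1) (2 * (k' + 1 + 1)) (k' + 1 + 1) x < δ) := ⟨_, rfl⟩
  have hcard : (((range (3 ^ (k' + 1 + 1))).filter (fun x : ℕ => ¬ (3 : ℤ) ∣ (x : ℤ) ∧
      Dn (k' + 1 + 1) (2 * (k' + 1 + 1)) (k' + 1 + 1) (x : ℤ) < ε / 50 / Real.sqrt ((k' + 1 : ℕ) : ℝ))).card : ℝ) =
      ∑ x ∈ range (3 ^ (k' + 1 + 1)), g (x : ℤ) := by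
    rw [← hδ, hg, card_eq_sum_ones, sum_filter]
    push_cast
    refine sum_congr rfl fun x _ => ?_
    unfold bl
    by_cases h : ¬ (3 : ℤ) ∣ (x : ℤ) ∧ Dn (k' + 1 + 1) (2 * (k' + 1 + 1)) (k' + 1 + 1) (x : ℤ) < δ
    · rw [if_pos h, if_pos h]
    · rw [if_neg h, if_neg h]
  have hcard' := hcard
  have h2 : ∑ x ∈ range (3 ^ (k' + 1 + 1)), g (x : ℤ) =
      ∑ y ∈ range (3 ^ (k' + 1)), g (0 + 3 * (y : ℤ)) + ∑ y ∈ range (3 ^ (k' + 1)), g (1 + 3 * (y : ℤ)) +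
      ∑ y ∈ range (3 ^ (k' + 1)), g (2 + 3 * (y : ℤ)) := by
    rw [show k' + 1 + 1 = 1 + (k' + 1) by ring, sum_pow 1 (k' + 1) g, pow_one, sum_range_succ, sum_range_succ,
      sum_range_succ, sum_range_zero]
    simp only [pow_one, Nat.cast_zero, Nat.cast_one, Nat.cast_ofNat, zero_add]
  have hz : ∑ y ∈ range (3 ^ (k' + 1)), g (0 + 3 * (y : ℤ)) = 0 := by
    apply sum_eq_zero
    intro y _
    rw [hg]
    apply bl_false
    intro h
    exact h.1 ⟨y, by ring⟩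
  -- class two
  have htwo : ∑ y ∈ range (3 ^ (k' + 1)), g (2 + 3 * (y : ℤ)) ≤ β * 3 ^ (k' + 1) := by
    refine le_trans (sum_le_sum fun y _ => ?_) (hbl (2 * (k' + 1 + 1)) (k' + 1) (by omega) (by omega) (by omega) (by omega))
    rw [hg]
    apply bl_mono
    rintro ⟨_, h⟩
    refine lt_of_lt_of_le h (le_trans ?_ (hcmp (2 * (k' + 1 + 1)) (by omega) (by omega)))
    linarith
  -- class one
  have hone : ∑ y ∈ range (3 ^ (k' + 1)), g (1 + 3 * (y : ℤ)) ≤ β * 3 ^ (k' + 1) := by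
    rw [show k' + 1 = 1 + k' by ring, sum_pow 1 k' (fun y => g (1 + 3 * y)), pow_one]
    have h3 : ∀ i ∈ range 3, ∑ v ∈ range (3 ^ k'), g (1 + 3 * ((i : ℤ) + 3 ^ 1 * (v : ℤ))) ≤ β * 3 ^ k' := by
      intro i hi
      obtain ⟨a, ha2, ha6, s, hs⟩ := class_one i (mem_range.1 hi)
      obtain ⟨F, hF⟩ : ∃ F : ℤ → ℝ, F = fun z => bl (Dn (k' + 1) (2 * (k' + 1 + 1) - a) (k' + 1) (2 + 3 * z) <
        ε / Real.sqrt ((2 * (k' + 1 + 1) - a : ℕ) : ℝ)) := ⟨_, rfl⟩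
      have h4 : ∀ v : ℕ, g (1 + 3 * ((i : ℤ) + 3 ^ 1 * (v : ℤ))) ≤ F (s + 2 ^ a * (v : ℤ)) := by
        intro v
        rw [hg, hF]
        apply bl_mono
        rintro ⟨_, h⟩
        have h5 := Dn_step' h0 (show 1 ≤ a by omega) (2 * (k' + 1 + 1) - a) (k' + 1) (1 + 3 * ((i : ℤ) + 3 * (v : ℤ)))
          (2 + 3 * (s + 2 ^ a * (v : ℤ))) (hs v)
        rw [Nat.sub_add_cancel (by omega)] at h5
        rw [pow_one] at h
        have h6 := lt_of_le_of_lt h5 h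
        have h7 := Dn_nonneg (k' + 1) (2 * (k' + 1 + 1) - a) (k' + 1) (2 + 3 * (s + 2 ^ a * (v : ℤ)))
        have h8 : (3 : ℝ) / 64 ≤ 3 / 2 ^ a := by
          apply div_le_div_of_nonneg_left (by norm_num) (by positivity)
          calc (2 : ℝ) ^ a ≤ 2 ^ 6 := pow_le_pow_right₀ (by norm_num) ha6
            _ = 64 := by norm_num
        have h9 := mul_le_mul_of_nonneg_right h8 h7
        refine lt_of_lt_of_le ?_ (hcmp (2 * (k' + 1 + 1) - a) (by omega) (by omega))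
        linarith
      refine le_trans (sum_le_sum fun v _ => h4 v) ?_
      rw [sum_affine k' (f := F) ?_ _ _ (two_pow_not_dvd _)]
      · rw [hF]
        exact hbl (2 * (k' + 1 + 1) - a) k' (by omega) (by omega) (by omega) (by omega)
      · intro z
        rw [hF]
        simp only
        rw [show 2 + 3 * (z + 3 ^ k') = 2 + 3 * z + 3 ^ (k' + 1) by ring, Dn_per]
    refine le_trans (sum_le_sum h3) (le_of_eq ?_)
    rw [sum_const, card_range, nsmul_eq_mul, pow_add]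
    push_cast; ring
  have hpw : (0 : ℝ) < 3 ^ (k' + 1) := by positivity
  have hfin : ∑ x ∈ range (3 ^ (k' + 1 + 1)), g (x : ℤ) ≤ η * 3 ^ (k' + 1 + 1) := by
    rw [h2, hz, pow_succ (3 : ℝ) (k' + 1)]
    nlinarith
  refine le_trans (le_of_eq ?_) hfin
  rw [← hcard]

end Pool.Agent.Helper50.Q1
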