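import Pool.Agent.Helper3.Q1.ANdefs
import Pool.Agent.Helper3.Q1.Res

/-! The canonical map on the class `2` modulo `3` (in the coordinate `x = 2 + 3 y`) and the lower bounds it gives. -/

namespace Pool.Agent.Helper50.Q1

open Finset Pool.Agent.Helper3.ND Pool.Agent.Helper3.TD Pool.Agent.Helper3.Q1

/-- exponent of the canonical step -/
def al (y : ℤ) : ℕ := if y % 3 = 0 then 3 else if y % 3 = 1 then 5 else 1

/-- canonical step -/
def sg (y : ℤ) : ℤ := if y % 3 = 0 then 1 + 8 * (y / 3) else if y % 3 = 1 then 17 + 32 * (y / 3) else 1 + 2 * (y / 3)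

/-- total exponent of `m` canonical steps -/
def dm : ℕ → ℤ → ℕ
  | 0, _ => 0
  | m + 1, y => al y + dm m (sg y)

theorem three_cases (y : ℤ) : y % 3 = 0 ∨ y % 3 = 1 ∨ y % 3 = 2 := by omega

theorem al_ge (y : ℤ) : 1 ≤ al y := by
  unfold al; split_ifs <;> omega

theorem al_le (y : ℤ) : al y ≤ 5 := by
  unfold al; split_ifs <;> omega

theorem dm_ge (m : ℕ) : ∀ y, m ≤ dm m y := by
  induction m with
  | zero => intro y; exact Nat.zero_le _
  | succ m ih => intro y; have := ih (sg y); have := al_ge y; simp only [dm]; omega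

theorem dm_le (m : ℕ) : ∀ y, dm m y ≤ 5 * m := by
  induction m with
  | zero => intro y; simp [dm]
  | succ m ih => intro y; have := ih (sg y); have := al_le y; simp only [dm]; omega

theorem sg_eq (y : ℤ) : 3 * (2 + 3 * sg y) = 2 ^ al y * (2 + 3 * y) - 1 := by
  unfold sg al
  rcases three_cases y with h | h | h
  · rw [if_pos h, if_pos h]; omega
  · rw [if_neg (by omega), if_pos h, if_neg (by omega), if_pos h]; omega
  · rw [if_neg (by omega), if_neg (by omega), if_neg (by omega), if_neg (by omega)]; omega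

theorem al_shift (y v : ℤ) : al (y + 3 * v) = al y := by
  unfold al
  rw [show (y + 3 * v) % 3 = y % 3 by omega]

theorem sg_shift (y v : ℤ) : sg (y + 3 * v) = sg y + 2 ^ al y * v := by
  have h1 := sg_eq (y + 3 * v)
  have h2 := sg_eq y
  rw [al_shift] at h1
  have h3 : 9 * sg (y + 3 * v) = 9 * (sg y + 2 ^ al y * v) := by linear_combination h1 - h2
  exact mul_left_cancel₀ (by norm_num) h3

theorem dm_shift (m : ℕ) : ∀ y v : ℤ, dm m (y + 3 ^ m * v) = dm m y := by
  induction m with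
  | zero => intro y v; rfl
  | succ m ih =>
    intro y v
    simp only [dm]
    rw [show y + 3 ^ (m + 1) * v = y + 3 * (3 ^ m * v) by ring, al_shift, sg_shift,
      show sg y + 2 ^ al y * (3 ^ m * v) = sg y + 3 ^ m * (2 ^ al y * v) by ring, ih]

theorem sgm_shift (m : ℕ) : ∀ y v : ℤ, sg^[m] (y + 3 ^ m * v) = sg^[m] y + 2 ^ dm m y * v := by
  induction m with
  | zero => intro y v; simp [dm]
  | succ m ih =>
    intro y v
    rw [Function.iterate_succ_apply, Function.iterate_succ_apply,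
      show y + 3 ^ (m + 1) * v = y + 3 * (3 ^ m * v) by ring, sg_shift,
      show sg y + 2 ^ al y * (3 ^ m * v) = sg y + 3 ^ m * (2 ^ al y * v) by ring, ih]
    simp only [dm]
    rw [pow_add]; ring

theorem Dn_nonneg (n t j : ℕ) (x : ℤ) : 0 ≤ Dn n t j x := D_nonneg _ _ _ _ _

theorem Dn_per (n t j : ℕ) (x : ℤ) : Dn n t j (x + 3 ^ n) = Dn n t j x := D_per _ _ _ _ _

theorem Dn_per_mul (n t j : ℕ) (x m : ℤ) : Dn n t j (x + 3 ^ n * m) = Dn n t j x := by
  have hp : Function.Periodic (Dn n t j) (3 ^ n) := Dn_per n t j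
  have := hp.int_mul m x
  rw [mul_comm (3 ^ n) m]
  exact_mod_cast this

/-- one step of the tree -/
theorem Dn_step (h0 : AN0) (a : ℕ) : ∀ (t j : ℕ) (x z : ℤ), 3 * z = 2 ^ (a + 1) * x - 1 →
    3 / 2 ^ (a + 1) * Dn j t j z ≤ Dn (j + 1) (t + (a + 1)) (j + 1) x := by
  induction a with
  | zero =>
    intro t j x z hz
    rw [zero_add, h0.1]
    have hd : (3 : ℤ) ∣ 2 * x - 1 := ⟨z, by rw [hz]; ring⟩
    rw [if_pos hd]
    have hz' : (2 * x - 1) / 3 = z := by
      have : 2 * x - 1 = 3 * z := by rw [hz]; ring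
      rw [this]; exact Int.mul_ediv_cancel_left _ (by norm_num)
    rw [hz']
    have := Dn_nonneg (j + 1) t (j + 1) (2 * x)
    rw [pow_one]
    linarith
  | succ a ih =>
    intro t j x z hz
    rw [show t + (a + 1 + 1) = (t + (a + 1)) + 1 by ring, h0.1]
    have h1 := ih t j (2 * x) z (by rw [hz]; ring)
    have h2 : 0 ≤ (if (3 : ℤ) ∣ 2 * x - 1 then 3 / 2 * Dn j (t + (a + 1)) j ((2 * x - 1) / 3) else 0) := by
      split_ifs
      · have := Dn_nonneg j (t + (a + 1)) j ((2 * x - 1) / 3)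
        positivity
      · exact le_rfl
    have h3 : (3 : ℝ) / 2 ^ (a + 1 + 1) * Dn j t j z = 1 / 2 * (3 / 2 ^ (a + 1) * Dn j t j z) := by
      rw [pow_succ (2 : ℝ) (a + 1)]; field_simp
    rw [h3]
    linarith

theorem Dn_step' (h0 : AN0) {a : ℕ} (ha : 1 ≤ a) (t j : ℕ) (x z : ℤ) (hz : 3 * z = 2 ^ a * x - 1) :
    3 / 2 ^ a * Dn j t j z ≤ Dn (j + 1) (t + a) (j + 1) x := by
  obtain ⟨b, rfl⟩ := Nat.exists_eq_add_of_le' ha
  exact Dn_step h0 b t j x z hz

/-- a block of canonical steps -/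
theorem Dn_block (h0 : AN0) (m : ℕ) : ∀ (t j : ℕ) (y : ℤ),
    3 ^ m / 2 ^ dm m y * Dn j t j (2 + 3 * sg^[m] y) ≤ Dn (j + m) (t + dm m y) (j + m) (2 + 3 * y) := by
  induction m with
  | zero => intro t j y; simp [dm]
  | succ m ih =>
    intro t j y
    have h1 := Dn_step' h0 (al_ge y) (t + dm m (sg y)) (j + m) (2 + 3 * y) (2 + 3 * sg y) (sg_eq y)
    have h2 := ih t j (sg y)
    rw [Function.iterate_succ_apply]
    simp only [dm]
    rw [show j + (m + 1) = j + m + 1 by ring, show t + (al y + dm m (sg y)) = t + dm m (sg y) + al y by ring]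
    refine le_trans (le_of_eq ?_) (le_trans (mul_le_mul_of_nonneg_left h2 (by positivity : (0 : ℝ) ≤ 3 / 2 ^ al y)) h1)
    rw [pow_add (2 : ℝ), pow_succ (3 : ℝ)]
    field_simp

theorem Dn_block' (h0 : AN0) (m t j : ℕ) (y : ℤ) :
    (3 / 32) ^ m * Dn j t j (2 + 3 * sg^[m] y) ≤ Dn (j + m) (t + dm m y) (j + m) (2 + 3 * y) := by
  refine le_trans ?_ (Dn_block h0 m t j y)
  apply mul_le_mul_of_nonneg_right _ (Dn_nonneg _ _ _ _)
  rw [div_pow]
  apply div_le_div_of_nonneg_left (by positivity) (by positivity)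
  calc (2 : ℝ) ^ dm m y ≤ 2 ^ (5 * m) := pow_le_pow_right₀ (by norm_num) (dm_le m y)
    _ = 32 ^ m := by rw [pow_mul]; norm_num

theorem Dn_test (h0 : AN0) (t j : ℕ) (y : ℤ) : 3 / 2 * Dn j t j (1 + 2 * y) ≤ Dn (j + 1) (t + 1) (j + 1) (2 + 3 * y) := by
  have := Dn_step' h0 (le_refl 1) t j (2 + 3 * y) (1 + 2 * y) (by ring)
  simpa using this

theorem sum_affine (N : ℕ) {f : ℤ → ℝ} (h : ∀ x, f (x + 3 ^ N) = f x) (u c : ℤ) (hu : ¬ (3 : ℤ) ∣ u) :
    ∑ x ∈ range (3 ^ N), f (c + u * (x : ℤ)) = ∑ x ∈ range (3 ^ N), f (x : ℤ) := by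
  cases N with
  | zero =>
    have hp : Function.Periodic f 1 := by
      intro x
      have := h x
      simpa using this
    have h1 := hp.int_mul c 0
    simp only [pow_zero, sum_range_one, Nat.cast_zero, mul_zero, add_zero]
    simpa using h1
  | succ N => exact sum_aff N h u c hu

theorem sum_pow (m r : ℕ) (F : ℤ → ℝ) :
    ∑ x ∈ range (3 ^ (m + r)), F (x : ℤ) = ∑ x ∈ range (3 ^ m), ∑ v ∈ range (3 ^ r), F ((x : ℤ) + 3 ^ m * (v : ℤ)) := by
  rw [pow_add, sum_digits]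
  apply sum_congr rfl; intro i _
  apply sum_congr rfl; intro v _
  push_cast; rfl

theorem D_le (n t k : ℕ) (P : ℕ → Prop) (x : ℤ) : D n t k P x ≤ 3 ^ n * mass t k P := by
  classical
  unfold D mass
  have h1 : ∀ r ∈ range (2 ^ t), (if od t (r : ℤ) = k ∧ P r ∧ (3 : ℤ) ^ n ∣ x - T^[t] (r : ℤ) then (3 : ℝ) ^ n / 2 ^ t else 0) ≤
      if od t (r : ℤ) = k ∧ P r then (3 : ℝ) ^ n / 2 ^ t else 0 := by
    intro r _
    by_cases h : od t (r : ℤ) = k ∧ P r ∧ (3 : ℤ) ^ n ∣ x - T^[t] (r : ℤ)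
    · rw [if_pos h, if_pos ⟨h.1, h.2.1⟩]
    · rw [if_neg h]
      split_ifs
      · positivity
      · exact le_rfl
  refine le_trans (sum_le_sum h1) (le_of_eq ?_)
  rw [← sum_filter, sum_const, nsmul_eq_mul]
  field_simp

end Pool.Agent.Helper50.Q1
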